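import Mathlib
import Pool.Agent.Lib.MP_8e1908_an.Defs
import Pool.Agent.Lib.MP_8e1908_an.Proof

set_option autoImplicit false

namespace Pool.Agent.Results.MP_8e1908_an.LimsupLtOne

open Pool.Agent.Lib.MP_8e1908_an

/-- For every `a` in `(0,1)` there is `ε > 0` with `δ_n(a) ≤ 1 - ε` for all large `n`;
so `δ_n(a)` tends to `1` for no `a` in `(0,1)`. -/
theorem result : ∀ a : ℝ, 0 < a → a < 1 →
    ∃ ε : ℝ, 0 < ε ∧ ∃ N : ℕ, ∀ n ≥ N, delta n a ≤ 1 - ε :=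
  main

end Pool.Agent.Results.MP_8e1908_an.LimsupLtOne
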